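import Pool.Agent.W_51eaa9_h26.Main

set_option autoImplicit false

namespace Pool.Agent.Results.MP_51eaa9_ag.HalfGridCriterion

open Pool.Agent.Gep26

/-- Let `Z ⊆ ℙ³` lie on `k ≥ 3` pairwise disjoint lines `L i`, each of which contains exactly
`l ≥ 1` points of `Z`.  Then `Z` is `(k, l)`-geproci if and only if for any three of the lines every
point of `Z` on the first one is collinear with a point of `Z` on the second one and a point of `Z` on
the third one. -/
theorem result (k l : ℕ) (three_le : 3 ≤ k) (one_le : 1 ≤ l) (Z : Set P3)
    (L : Fin k → Submodule ℂ (Fin 4 → ℂ)) (halfGrid : IsHalfGrid k l Z L) :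
    Geproci k l Z ↔ HasTransversals Z L :=
  geproci_iff three_le one_le halfGrid

end Pool.Agent.Results.MP_51eaa9_ag.HalfGridCriterion
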