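import Pool.Agent.W_51eaa9_h26.Grid

set_option autoImplicit false

namespace Pool.Agent.Results.MP_51eaa9_ag.HalfGrids

open Pool.Agent.Gep26

/-- Question Q1 for all half grids.  Let `Z ⊆ ℙ³` be an `(a, b)`-geproci set, `1 ≤ a ≤ b`, which is
not contained in a plane and is not a grid, and suppose that `Z` lies on `k` pairwise disjoint lines
`L i`, each of which contains exactly `l` points of `Z`, where `(k, l) = (a, b)` or
`(k, l) = (b, a)`.  Then every set `Z'` which is weakly combinatorially equivalent to `Z` is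
`(a, b)`-geproci. -/
theorem result (a b k l : ℕ) (one_le : 1 ≤ a) (le : a ≤ b)
    (degrees : k = a ∧ l = b ∨ k = b ∧ l = a) (Z Z' : Set P3)
    (L : Fin k → Submodule ℂ (Fin 4 → ℂ)) (halfGrid : IsHalfGrid k l Z L)
    (notPlanar : ¬ IsPlanar Z) (notGrid : ¬ IsGrid Z) (geproci : Geproci a b Z)
    (equivalent : WeaklyEquivalent Z Z') : Geproci a b Z' :=
  halfGrid_geproci one_le le degrees halfGrid notPlanar notGrid geproci equivalent

end Pool.Agent.Results.MP_51eaa9_ag.HalfGrids
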